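import Pool.Agent.Helper72.RP7

set_option autoImplicit false

open scoped Manifold ContDiff
open Set Bundle

namespace Pool.Agent.Results.MP_095559_gt.NoThetaNet

/-- A closed Riemannian manifold modelled on the (finite-dimensional) normed space `E`: a compact
connected manifold without boundary, with a `C^∞` structure and a `C^∞` Riemannian metric, whose
distance is the Riemannian distance (the infimum of the lengths of `C^1` paths). -/
structure ClosedRiemannianManifold (E : Type) [NormedAddCommGroup E] [NormedSpace ℝ E] where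
  carrier : Type
  metricSpace : MetricSpace carrier
  chartedSpace : ChartedSpace E carrier
  isManifold : IsManifold 𝓘(ℝ, E) ∞ carrier
  riemannianBundle : RiemannianBundle (fun x : carrier => TangentSpace 𝓘(ℝ, E) x)
  smoothMetric : IsContMDiffRiemannianBundle 𝓘(ℝ, E) ∞ E
    (fun x : carrier => TangentSpace 𝓘(ℝ, E) x)
  isRiemannian : IsRiemannianManifold 𝓘(ℝ, E) carrier
  compact : CompactSpace carrier
  connected : ConnectedSpace carrier

attribute [instance] ClosedRiemannianManifold.metricSpace ClosedRiemannianManifold.chartedSpace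
  ClosedRiemannianManifold.isManifold

section
variable {E : Type} [NormedAddCommGroup E] [NormedSpace ℝ E]

/-- `IsGeodesicSegment M γ L`: the curve `γ`, restricted to `[0, L]` with `0 < L`, is a geodesic
segment of `M` parametrised by arc length: it is smooth and it locally realises the (Riemannian)
distance between its points. -/
structure IsGeodesicSegment (M : ClosedRiemannianManifold E) (γ : ℝ → M.carrier) (L : ℝ) :
    Prop where
  pos : 0 < L
  smooth : ContMDiffOn 𝓘(ℝ, ℝ) 𝓘(ℝ, E) ∞ γ (Icc 0 L)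
  locally_minimizing : ∀ t ∈ Icc 0 L, ∃ ε > 0, ∀ s ∈ Icc 0 L, ∀ s' ∈ Icc 0 L,
    |s - t| < ε → |s' - t| < ε → dist (γ s) (γ s') = |s - s'|

/-- `HasVelocity M γ L t c x u`: the curve `γ : [0, L] → M` is at the point `x` at time `t`, and `u`
in the tangent space at `x` is `c` times the velocity of `γ` at time `t`. -/
def HasVelocity (M : ClosedRiemannianManifold E) (γ : ℝ → M.carrier) (L t c : ℝ) (x : M.carrier)
    (u : TangentSpace 𝓘(ℝ, E) x) : Prop :=
  tangentMapWithin 𝓘(ℝ, ℝ) 𝓘(ℝ, E) γ (Icc 0 L) ⟨t, c⟩ = ⟨x, u⟩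

/-- A closed geodesic net modelled on the theta graph in `M`: two distinct points `p`, `q` and three
pairwise distinct geodesic segments `γ i` (parametrised by arc length on `[0, len i]`) from `p` to
`q`, without self-intersections, meeting pairwise only at `p` and `q`, such that the three unit
tangent vectors at `p` pointing away from `p` (the velocities `u i` of `γ i` at time `0`) sum to
zero, and the three unit tangent vectors at `q` pointing away from `q` (the opposites `v i` of the
velocities of `γ i` at time `len i`) sum to zero. -/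
structure ThetaNet (M : ClosedRiemannianManifold E) where
  p : M.carrier
  q : M.carrier
  p_ne_q : p ≠ q
  len : Fin 3 → ℝ
  γ : Fin 3 → ℝ → M.carrier
  geodesic : ∀ i, IsGeodesicSegment M (γ i) (len i)
  start : ∀ i, γ i 0 = p
  finish : ∀ i, γ i (len i) = q
  no_self_intersection : ∀ i, InjOn (γ i) (Icc 0 (len i))
  distinct : ∀ i j, i ≠ j → γ i '' Icc 0 (len i) ≠ γ j '' Icc 0 (len j)
  meet : ∀ i j, i ≠ j → γ i '' Icc 0 (len i) ∩ γ j '' Icc 0 (len j) = {p, q}
  u : Fin 3 → TangentSpace 𝓘(ℝ, E) p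
  u_spec : ∀ i, HasVelocity M (γ i) (len i) 0 1 p (u i)
  balanced_p : ∑ i, u i = 0
  v : Fin 3 → TangentSpace 𝓘(ℝ, E) q
  v_spec : ∀ i, HasVelocity M (γ i) (len i) (len i) (-1) q (v i)
  balanced_q : ∑ i, v i = 0

end

open Pool.Agent.Helper72.RP

instance instCont (n : ℕ) : IsContinuousRiemannianBundle (EuclideanSpace ℝ (Fin n))
    (fun P : RP n => TangentSpace (𝓡 n) P) := by
  obtain ⟨g, hg, h⟩ := (instCRB n).exists_contMDiff
  exact ⟨g, hg.continuous, h⟩

/-- the Riemannian distance on real projective space -/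
@[reducible] noncomputable def emetric (n : ℕ) : EMetricSpace (RP n) :=
  EMetricSpace.ofRiemannianMetric (𝓡 n) (RP n)

lemma edist_ne_top (n : ℕ) (P Q : RP n) : (emetric n).edist P Q ≠ ⊤ := by
  change Manifold.riemannianEDist (𝓡 n) P Q ≠ ⊤
  rw [edist_formula]; exact ENNReal.ofReal_ne_top

@[reducible] noncomputable def metricSpace (n : ℕ) : MetricSpace (RP n) :=
  letI := emetric n
  EMetricSpace.toMetricSpace (edist_ne_top n)

lemma dist_formula (n : ℕ) (P Q : RP n) :
    (metricSpace n).dist P Q = Real.arccos (√(inner ℝ (ι P) (ι Q))) := by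
  change (Manifold.riemannianEDist (𝓡 n) P Q).toReal = _
  rw [edist_formula, ENNReal.toReal_ofReal (Real.arccos_nonneg _)]

/-- round real projective `n`-space -/
noncomputable def RPn (n : ℕ) (hn : 1 ≤ n) : ClosedRiemannianManifold (EuclideanSpace ℝ (Fin n)) where
  carrier := RP n
  metricSpace := metricSpace n
  chartedSpace := inferInstance
  isManifold := inferInstance
  riemannianBundle := inferInstance
  smoothMetric := instCRB n
  isRiemannian := by
    let _ := metricSpace n
    exact ⟨fun x y => rfl⟩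
  compact := inferInstance
  connected := connected hn

/-- A geodesic segment starting at `P = [x]` is the projective line `t ↦ [cos t x + sin t w]`, and
its initial velocity is the corresponding tangent vector. -/
lemma segment_form {n : ℕ} {hn : 1 ≤ n} {γ : ℝ → RP n} {L : ℝ}
    (h : IsGeodesicSegment (RPn n hn) γ L) {P : RP n} (hP : γ 0 = P) {x : V n}
    (hx : ‖x‖ = 1) (hPx : ι P = outer x x) (u : TangentSpace (𝓡 n) P)
    (hu : HasVelocity (RPn n hn) γ L 0 1 P u) :
    ∃ w : V n, ‖w‖ = 1 ∧ inner ℝ x w = 0 ∧ dι P u = outer x w + outer w x ∧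
      ι (γ L) = outer (gc x w L) (gc x w L) := by
  let _ := metricSpace n
  have hL := h.pos
  have hsm : ContMDiffOn 𝓘(ℝ, ℝ) (𝓡 n) ∞ γ (Icc 0 L) := h.smooth
  have hc : ContDiffOn ℝ ∞ (fun t => ι (γ t)) (Icc 0 L) := contDiffOn_ι le_rfl hsm
  have hloc : ∀ t ∈ Icc 0 L, ∃ ε > 0, ∀ s ∈ Icc 0 L, ∀ s' ∈ Icc 0 L, |s - t| < ε →
      |s' - t| < ε → Real.arccos (√(inner ℝ (ι (γ s)) (ι (γ s')))) = |s - s'| := by
    intro t ht
    obtain ⟨ε, hε, h'⟩ := h.locally_minimizing t ht
    refine ⟨ε, hε, fun s hs s' hs' h1 h2 => ?_⟩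
    rw [← dist_formula]
    exact h' s hs s' hs' h1 h2
  obtain ⟨x', w', hx', hw', hxw', hform⟩ := exists_line hL hc.continuousOn hloc
  have h0 : (0 : ℝ) ∈ Icc 0 L := ⟨le_rfl, hL.le⟩
  have hLL : L ∈ Icc 0 L := ⟨hL.le, le_rfl⟩
  -- the velocity
  have hud : UniqueDiffWithinAt ℝ (Icc 0 L) 0 := uniqueDiffOn_Icc hL 0 h0
  have hmd : MDifferentiableWithinAt 𝓘(ℝ, ℝ) (𝓡 n) γ (Icc 0 L) 0 :=
    (hsm 0 h0).mdifferentiableWithinAt (by simp)
  have hder := dι_mfderivWithin hmd
  have hder2 : HasDerivWithinAt (fun r => ι (γ r)) (outer x' w' + outer w' x') (Icc 0 L) 0 := by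
    have h3 := (hasDerivAt_outer_gc x' w' 0).hasDerivWithinAt (s := Icc 0 L)
    simp only [gc_zero, Real.sin_zero, Real.cos_zero, neg_zero, zero_smul, one_smul, zero_add] at h3
    exact h3.congr (fun s hs => hform s hs) (by rw [hform 0 h0])
  have heq := hud.eq_deriv _ hder hder2
  have hdu : dι P u = outer x' w' + outer w' x' := by
    rw [← heq]
    have h4 : (⟨γ 0, mfderivWithin 𝓘(ℝ, ℝ) (𝓡 n) γ (Icc 0 L) 0 (1 : ℝ)⟩ : TangentBundle (𝓡 n) (RP n)) =
      ⟨P, u⟩ := hu
    subst hP
    have h5 := (TotalSpace.mk.inj h4).2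
    rw [eq_of_heq h5]
  have hxx : outer x' x' = outer x x := by
    rw [← hPx, ← hP, hform 0 h0, gc_zero]
  rcases (outer_self_eq_iff hx' hx).1 hxx with h6 | h6
  · subst h6
    exact ⟨w', hw', hxw', hdu, hform L hLL⟩
  · subst h6
    refine ⟨-w', by rwa [norm_neg], ?_, ?_, ?_⟩
    · rw [inner_neg_left, inner_neg_right, hxw']; simp
    · rw [hdu]; ext p; simp
    · rw [hform L hLL]; ext p; simp [gc]; ring

/-- there is no closed geodesic net modelled on the theta graph in round real projective space -/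
theorem no_theta (n : ℕ) (hn : 1 ≤ n) (N : ThetaNet (RPn n hn)) : False := by
  obtain ⟨x, hx, hPx⟩ := exists_unit N.p
  obtain ⟨y, hy, hQy⟩ := exists_unit N.q
  have key := fun i => segment_form (N.geodesic i) (N.start i) hx hPx (N.u i) (N.u_spec i)
  choose w hw hxw hdu hend using key
  -- the component of `y` orthogonal to `x`
  set z : V n := y - (inner ℝ x y : ℝ) • x with hz
  have hyx : ¬ (y = x ∨ y = -x) := by
    intro h
    apply N.p_ne_q
    apply ι_injective
    rw [hPx, hQy]
    exact (outer_self_eq_iff hx hy).2 h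
  have hwz : ∀ i, ∃ κ : ℝ, w i = κ • z ∧ κ ^ 2 * ‖z‖ ^ 2 = 1 := by
    intro i
    have h1 : outer y y = outer (gc x (w i) (N.len i)) (gc x (w i) (N.len i)) := by
      rw [← hQy, ← N.finish i]; exact hend i
    have h2 : ∃ σ : ℝ, σ ^ 2 = 1 ∧ y = σ • gc x (w i) (N.len i) := by
      rcases (outer_self_eq_iff (norm_gc hx (hw i) (hxw i) _) hy).1 h1.symm with h | h
      · exact ⟨1, by norm_num, by rw [one_smul]; exact h⟩
      · exact ⟨-1, by norm_num, by rw [neg_one_smul]; exact h⟩
    obtain ⟨σ, hσ, h2⟩ := h2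
    have h3 : (inner ℝ x y : ℝ) = σ * Real.cos (N.len i) := by
      rw [h2, inner_smul_right, gc, inner_add_right, inner_smul_right, inner_smul_right, hxw i,
        real_inner_self_eq_norm_sq, hx]
      ring
    have h4 : z = (σ * Real.sin (N.len i)) • w i := by
      rw [hz, h3]
      conv_lhs => rw [h2]
      rw [gc]
      module
    have h5 : σ * Real.sin (N.len i) ≠ 0 := by
      intro h
      rw [h, zero_smul] at h4
      have h6 : y = (inner ℝ x y : ℝ) • x := sub_eq_zero.1 h4
      apply hyx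
      have h7 : (inner ℝ x y : ℝ) ^ 2 = 1 := by
        have : ‖y‖ = |(inner ℝ x y : ℝ)| * ‖x‖ := by
          conv_lhs => rw [h6]
          rw [norm_smul, Real.norm_eq_abs]
        rw [hx, hy, mul_one] at this
        rw [← sq_abs, ← this]; norm_num
      rcases sq_eq_sq_iff_eq_or_eq_neg.1 (h7.trans (one_pow 2).symm) with h8 | h8
      · left; rw [h8, one_smul] at h6; exact h6
      · right; rw [h8, neg_one_smul] at h6; exact h6
    refine ⟨(σ * Real.sin (N.len i))⁻¹, ?_, ?_⟩
    · rw [h4, smul_smul, inv_mul_cancel₀ h5, one_smul]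
    · rw [h4, norm_smul, hw i, Real.norm_eq_abs, mul_one, sq_abs, inv_pow]
      exact inv_mul_cancel₀ (pow_ne_zero 2 h5)
  choose κ hκ hκ2 using hwz
  -- the balancing condition
  have hsum : ∑ i, w i = 0 := by
    obtain ⟨U, hU⟩ : ∃ U : Fin 3 → EuclideanSpace ℝ (Fin n), U = N.u := ⟨_, rfl⟩
    have hU0 : ∑ i, U i = 0 := by
      rw [hU]; exact N.balanced_p
    have hdU : ∀ i, dι N.p (U i) = outer x (w i) + outer (w i) x := by
      intro i; rw [hU]; exact hdu i
    have h1 : ∑ i, dι N.p (U i) = 0 := by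
      rw [← map_sum, hU0, map_zero]
    have h2 : ∀ i, mvL x (dι N.p (U i)) = w i := by
      intro i
      rw [hdU i, map_add, mvL_apply, mvL_apply, mv_outer, mv_outer, real_inner_comm x (w i), hxw i,
        real_inner_self_eq_norm_sq, hx]
      simp
    calc ∑ i, w i = ∑ i, mvL x (dι N.p (U i)) := Finset.sum_congr rfl fun i _ => (h2 i).symm
      _ = mvL x (∑ i, dι N.p (U i)) := (map_sum _ _ _).symm
      _ = 0 := by rw [h1, map_zero]
  have hz0 : z ≠ 0 := by
    intro h
    have := hκ2 0
    rw [h, norm_zero] at this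
    norm_num at this
  have hκsum : κ 0 + κ 1 + κ 2 = 0 := by
    rw [Fin.sum_univ_three, hκ 0, hκ 1, hκ 2, ← add_smul, ← add_smul] at hsum
    exact (smul_eq_zero.1 hsum).resolve_right hz0
  have hzn : 0 < ‖z‖ ^ 2 := by positivity
  have h01 : κ 1 ^ 2 = κ 0 ^ 2 := mul_right_cancel₀ hzn.ne' ((hκ2 1).trans (hκ2 0).symm)
  have h02 : κ 2 ^ 2 = κ 0 ^ 2 := mul_right_cancel₀ hzn.ne' ((hκ2 2).trans (hκ2 0).symm)
  have hk0 : κ 0 ≠ 0 := by
    intro h
    have := hκ2 0
    rw [h] at this
    norm_num at this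
  rcases sq_eq_sq_iff_eq_or_eq_neg.1 h01 with h | h <;>
  rcases sq_eq_sq_iff_eq_or_eq_neg.1 h02 with h' | h' <;>
  · rw [h, h'] at hκsum
    apply hk0
    linarith

/-- For every `n ≥ 2` there is a closed Riemannian manifold of dimension `n` that contains no closed
geodesic net modelled on the theta graph. -/
theorem result : ∀ n : ℕ, 2 ≤ n →
    ∃ M : ClosedRiemannianManifold (EuclideanSpace ℝ (Fin n)), IsEmpty (ThetaNet M) :=
  fun n hn => ⟨RPn n (by omega), ⟨no_theta n _⟩⟩

end Pool.Agent.Results.MP_095559_gt.NoThetaNet
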